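import Pool.Agent.Helper51.GU.MATU
import Pool.Agent.Helper9.GT.DETR
import Pool.Agent.Helper74.GT.DIV

set_option autoImplicit false

/-! Module DVU: the determinant of `W - P^j` is divisible by `P^(3j)`. -/

namespace Pool.Agent.Helper69.GU

open Polynomial
open Pool.Agent.Helper51.GT (Mat PMat fr Dat dg Zm Fil Cir flp Red gprod Zp Filp Circ tr4
  mata_cir_mul mata_cirdg st_DETR div_Zm)
open Pool.Agent.Helper51.GT.Lib

theorem dvu_det_map {K : Type} [Field K] {φ : K ≃+* K} {M : Mat K} (hM : Cir φ M) :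
    M.det.map (fr φ 2) = M.det := by
  have h1 := congrArg Matrix.det hM
  rw [Matrix.det_mul, Matrix.det_mul, mul_comm] at h1
  have h2 := mul_left_cancel₀ div_Zm h1
  have h3 := (Polynomial.mapRingHom (fr φ 2)).map_det M
  rw [Polynomial.coe_mapRingHom] at h3
  rw [h3]
  exact h2

theorem dvu_cir_sub {K : Type} [Field K] {φ : K ≃+* K} {M N : Mat K} (hM : Cir φ M)
    (hN : Cir φ N) : Cir φ (M - N) := by
  have e : (M - N).map (Polynomial.map (fr φ 2)) =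
      M.map (Polynomial.map (fr φ 2)) - N.map (Polynomial.map (fr φ 2)) := by
    refine Matrix.ext fun i j => ?_
    simp [Matrix.sub_apply]
  unfold Cir at *
  rw [e, sub_mul, mul_sub, hM, hN]

theorem dvu_cir_smul {K : Type} [Field K] {φ : K ≃+* K} {ρ : K} (hr : Rho φ ρ) (j : ℕ) :
    Cir φ (((Pw ρ) ^ j) • (1 : Mat K)) := by
  have hP := matu_Pw_map hr
  have e : (((Pw ρ) ^ j) • (1 : Mat K)).map (Polynomial.map (fr φ 2)) =
      ((Pw ρ) ^ j) • (1 : Mat K) := by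
    refine Matrix.ext fun r c => ?_
    by_cases hrc : r = c
    · subst hrc
      simp [hP]
    · simp [Matrix.one_apply_ne hrc]
  unfold Cir
  rw [e, Matrix.smul_mul, one_mul, Matrix.mul_smul, mul_one]

theorem dvu_ne {K : Type} [Field K] {φ : K ≃+* K} {ρ : K} (h : Dat φ) (hr : Rho φ ρ) :
    ρ ^ 2 - ρ⁻¹ ^ 2 ≠ 0 := by
  intro h0
  have hρ := matu_rho_ne hr
  have h4 : ρ ^ 4 = 1 := by
    have h1 : ρ ^ 2 = ρ⁻¹ ^ 2 := sub_eq_zero.mp h0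
    calc ρ ^ 4 = ρ ^ 2 * ρ ^ 2 := by ring
      _ = ρ ^ 2 * ρ⁻¹ ^ 2 := by rw [← h1]
      _ = 1 := by rw [← mul_pow, mul_inv_cancel₀ hρ, one_pow]
  have h5 : (ρ - 1) ^ 4 = 0 := by
    linear_combination h4 + (-2 * ρ ^ 3 + 3 * ρ ^ 2 - 2 * ρ + 1) * h.two
  have h6 : ρ - 1 = 0 := pow_eq_zero_iff (by norm_num) |>.1 h5
  exact hr.ne (sub_eq_zero.mp h6)

theorem dvu_coprime {K : Type} [Field K] {φ : K ≃+* K} {ρ : K} (h : Dat φ) (hr : Rho φ ρ) :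
    IsCoprime (X + C (ρ ^ 2) : K[X]) (X + C (ρ⁻¹ ^ 2)) := by
  have hne := dvu_ne h hr
  refine ⟨C (ρ ^ 2 - ρ⁻¹ ^ 2)⁻¹, -C (ρ ^ 2 - ρ⁻¹ ^ 2)⁻¹, ?_⟩
  have h1 : (C (ρ ^ 2 - ρ⁻¹ ^ 2)⁻¹ : K[X]) * (C (ρ ^ 2) - C (ρ⁻¹ ^ 2)) = 1 := by
    rw [← C_sub, ← C_mul, inv_mul_cancel₀ hne, C_1]
  linear_combination h1

theorem st_DVU (hR : ST_RNKU) (hP : ST_PRODU) : ST_DVU := by
  intro K _ φ ρ h hr a b ha hb j hj hred
  obtain ⟨⟨u, v, S, hW⟩, -⟩ := hR K φ ρ h hr a b ha hb j hj hred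
  have e1 : wd φ ρ a b j - ((Pw ρ) ^ j) • (1 : Mat K) =
      Matrix.vecMulVec u v + ((X + C (ρ⁻¹ ^ 2) : K[X]) ^ j) •
        (S - ((X + C (ρ ^ 2) : K[X]) ^ j) • (1 : Mat K)) := by
    rw [hW, smul_sub, add_sub_assoc, smul_smul, ← mul_pow, mul_comm (X + C (ρ⁻¹ ^ 2) : K[X])]
    rfl
  have hd1 : (X + C (ρ⁻¹ ^ 2) : K[X]) ^ (3 * j) ∣
      (wd φ ρ a b j - ((Pw ρ) ^ j) • (1 : Mat K)).det := by
    rw [e1, mul_comm 3 j, pow_mul]
    exact st_DETR K[X] u v _ ((X + C (ρ⁻¹ ^ 2)) ^ j)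
  have hcir : Cir φ (wd φ ρ a b j - ((Pw ρ) ^ j) • (1 : Mat K)) :=
    dvu_cir_sub (hP K φ ρ h hr a b ha hb j).2.2.2.2 (dvu_cir_smul hr j)
  have e2 : fr φ 2 (ρ⁻¹ ^ 2) = ρ ^ 2 := by rw [map_pow, map_inv₀, matu_rho2 hr, inv_inv]
  have hd2 : (X + C (ρ ^ 2) : K[X]) ^ (3 * j) ∣
      (wd φ ρ a b j - ((Pw ρ) ^ j) • (1 : Mat K)).det := by
    have h1 := map_dvd (Polynomial.mapRingHom (fr φ 2)) hd1
    rw [Polynomial.coe_mapRingHom, dvu_det_map hcir, Polynomial.map_pow, Polynomial.map_add,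
      Polynomial.map_X, Polynomial.map_C, e2] at h1
    exact h1
  unfold Pw
  rw [mul_pow]
  unfold Pw at hd1 hd2
  exact IsCoprime.mul_dvd ((dvu_coprime h hr).pow) hd2 hd1

end Pool.Agent.Helper69.GU
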