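import Pool.Agent.Helper69.GU.Defs
import Pool.Agent.Helper51.GT.Lib
import Pool.Agent.Helper23.GT.MATA

set_option autoImplicit false

/-! Module MATU: determinant of `T` and the circulant property. -/

namespace Pool.Agent.Helper69.GU

open Polynomial
open Pool.Agent.Helper51.GT (Mat PMat fr Dat dg Zm Fil Cir flp Red gprod Zp Filp Circ tr4
  mata_cir_mul mata_cirdg)
open Pool.Agent.Helper51.GT.Lib

theorem matu_th {K : Type} [Field K] {φ : K ≃+* K} (ρ : K) (p : K × K) :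
    th φ ρ p = !![C p.1, C (tt φ p), C (ρ * fr φ 2 p.1), 0;
      0, C (fr φ 2 p.1), C (fr φ 2 (tt φ p)), C (fr φ 2 (ρ * fr φ 2 p.1));
      X * C (fr φ 4 (ρ * fr φ 2 p.1)), 0, C (fr φ 4 p.1), C (fr φ 4 (tt φ p));
      X * C (fr φ 6 (tt φ p)), X * C (fr φ 6 (ρ * fr φ 2 p.1)), 0, C (fr φ 6 p.1)] := by
  unfold th
  generalize tt φ p = t
  generalize ρ * fr φ 2 p.1 = m
  refine Matrix.ext fun i j => ?_
  rw [dg, dg, dg, Matrix.add_apply, Matrix.add_apply, Matrix.diagonal_mul, Matrix.diagonal_mul]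
  fin_cases i <;> fin_cases j <;>
    simp [Zm, Matrix.mul_apply, Fin.sum_univ_four, fr_zero, mul_comm (X : K[X])]

theorem matu_det {R : Type} [CommRing R] (h2 : (2 : R) = 0) (x a0 a1 a2 a3 t0 t1 t2 t3 m0 m1 m2 m3 : R) :
    (!![a0, t0, m0, 0; 0, a1, t1, m1; x * m2, 0, a2, t2; x * t3, x * m3, 0, a3] :
      Matrix (Fin 4) (Fin 4) R).det = a0 * a1 * a2 * a3 + x * (a0 * m1 * a2 * m3 + m0 * a1 * m2 * a3 +
        (a0 * t1 * t2 * m3 + t0 * t1 * m2 * a3 + t0 * m1 * a2 * t3 + m0 * a1 * t2 * t3 +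
          t0 * t1 * t2 * t3)) + x ^ 2 * (m0 * m1 * m2 * m3) := by
  rw [Matrix.det_succ_row_zero]
  simp [Fin.sum_univ_succ, Matrix.det_fin_three, Matrix.submatrix, Fin.succAbove]
  linear_combination -(x * (a0 * a2 * m3 * m1 + a1 * a3 * m2 * m0 + t0 * t1 * t2 * t3)) * h2

theorem matu_E {K : Type} [Field K] (h2 : (2 : K) = 0) (A B T U ρ : K) (hA : A ≠ 0) (hB : B ≠ 0)
    (hρ : ρ ≠ 0) (hE : T * U * (A + B) * (1 + A * B) = ρ * A * (1 + B ^ 2) + ρ⁻¹ * B * (1 + A ^ 2)) :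
    A * (U * (1 + B * A⁻¹)) * (T * (1 + A⁻¹ * B⁻¹)) * (ρ⁻¹ * A) +
      (T * (1 + A * B)) * (U * (1 + B * A⁻¹)) * (ρ * B⁻¹) * B⁻¹ +
      (T * (1 + A * B)) * (ρ⁻¹ * A⁻¹) * A⁻¹ * (U * (1 + B⁻¹ * A)) +
      (ρ * B) * B * (T * (1 + A⁻¹ * B⁻¹)) * (U * (1 + B⁻¹ * A)) +
      (T * (1 + A * B)) * (U * (1 + B * A⁻¹)) * (T * (1 + A⁻¹ * B⁻¹)) * (U * (1 + B⁻¹ * A)) = 0 := by
  have key : A * (U * (1 + B * A⁻¹)) * (T * (1 + A⁻¹ * B⁻¹)) * (ρ⁻¹ * A) +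
      (T * (1 + A * B)) * (U * (1 + B * A⁻¹)) * (ρ * B⁻¹) * B⁻¹ +
      (T * (1 + A * B)) * (ρ⁻¹ * A⁻¹) * A⁻¹ * (U * (1 + B⁻¹ * A)) +
      (ρ * B) * B * (T * (1 + A⁻¹ * B⁻¹)) * (U * (1 + B⁻¹ * A)) +
      (T * (1 + A * B)) * (U * (1 + B * A⁻¹)) * (T * (1 + A⁻¹ * B⁻¹)) * (U * (1 + B⁻¹ * A)) =
      T * U * (1 + A * B) * (A + B) * (A⁻¹ ^ 2 * B⁻¹ ^ 2) *
      (ρ⁻¹ * A ^ 2 * B + ρ * A + ρ⁻¹ * B + ρ * A * B ^ 2 + T * U * (A + B) * (1 + A * B)) := by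
    field_simp
    ring
  rw [key, hE]
  linear_combination T * U * (1 + A * B) * (A + B) * (A⁻¹ ^ 2 * B⁻¹ ^ 2) *
    (ρ * A * (1 + B ^ 2) + ρ⁻¹ * B * (1 + A ^ 2)) * h2

section conj

variable {K : Type} [Field K] {φ : K ≃+* K} {ρ : K} {p : K × K}

theorem matu_rho_ne (hr : Rho φ ρ) : ρ ≠ 0 := by
  intro h
  have := hr.mul
  rw [h, zero_mul] at this
  exact zero_ne_one this

theorem matu_rho2 (hr : Rho φ ρ) : fr φ 2 ρ = ρ⁻¹ :=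
  eq_inv_of_mul_eq_one_right hr.mul

theorem matu_rho4 (hr : Rho φ ρ) : fr φ 4 ρ = ρ := by
  have h : fr φ 4 ρ = fr φ 2 (fr φ 2 ρ) := by rw [fr_fr]
  rw [h, matu_rho2 hr, map_inv₀, matu_rho2 hr, inv_inv]

theorem matu_rho6 (hr : Rho φ ρ) : fr φ 6 ρ = ρ⁻¹ := by
  have h : fr φ 6 ρ = fr φ 2 (fr φ 4 ρ) := by rw [fr_fr]
  rw [h, matu_rho4 hr, matu_rho2 hr]

theorem matu_a_ne (hp : p ∈ XU φ ρ) : p.1 ≠ 0 := by
  intro h
  have := hp.1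
  rw [h, zero_mul] at this
  exact zero_ne_one this

theorem matu_a2_ne (hp : p ∈ XU φ ρ) : fr φ 2 p.1 ≠ 0 :=
  (_root_.map_ne_zero _).2 (matu_a_ne hp)

theorem matu_a4 (hp : p ∈ XU φ ρ) : fr φ 4 p.1 = p.1⁻¹ :=
  eq_inv_of_mul_eq_one_right hp.1

theorem matu_a6 (hp : p ∈ XU φ ρ) : fr φ 6 p.1 = (fr φ 2 p.1)⁻¹ := by
  have h : fr φ 6 p.1 = fr φ 2 (fr φ 4 p.1) := by rw [fr_fr]
  rw [h, matu_a4 hp, map_inv₀]

theorem matu_t4 (hp : p ∈ XU φ ρ) : fr φ 4 p.2 = p.2 := hp.2.2.2.1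

theorem matu_t6 (hp : p ∈ XU φ ρ) : fr φ 6 p.2 = fr φ 2 p.2 := by
  have h : fr φ 6 p.2 = fr φ 2 (fr φ 4 p.2) := by rw [fr_fr]
  rw [h, matu_t4 hp]

theorem matu_tt (p : K × K) : tt φ p = p.2 * (1 + p.1 * fr φ 2 p.1) := rfl

theorem matu_tt2 (hp : p ∈ XU φ ρ) : fr φ 2 (tt φ p) =
    fr φ 2 p.2 * (1 + fr φ 2 p.1 * p.1⁻¹) := by
  unfold tt
  simp only [map_mul, map_add, map_one, fr_fr]
  rw [matu_a4 hp]

theorem matu_tt4 (hp : p ∈ XU φ ρ) : fr φ 4 (tt φ p) =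
    p.2 * (1 + p.1⁻¹ * (fr φ 2 p.1)⁻¹) := by
  unfold tt
  simp only [map_mul, map_add, map_one, fr_fr]
  rw [matu_a4 hp, matu_a6 hp, matu_t4 hp]

theorem matu_tt6 (h : Dat φ) (hp : p ∈ XU φ ρ) : fr φ 6 (tt φ p) =
    fr φ 2 p.2 * (1 + (fr φ 2 p.1)⁻¹ * p.1) := by
  unfold tt
  simp only [map_mul, map_add, map_one, fr_fr]
  rw [matu_a6 hp, matu_t6 hp, h.ord]

theorem matu_m2 (hr : Rho φ ρ) (hp : p ∈ XU φ ρ) : fr φ 2 (ρ * fr φ 2 p.1) = ρ⁻¹ * p.1⁻¹ := by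
  simp only [map_mul, fr_fr]
  rw [matu_rho2 hr, matu_a4 hp]

theorem matu_m4 (hr : Rho φ ρ) (hp : p ∈ XU φ ρ) :
    fr φ 4 (ρ * fr φ 2 p.1) = ρ * (fr φ 2 p.1)⁻¹ := by
  simp only [map_mul, fr_fr]
  rw [matu_rho4 hr, matu_a6 hp]

theorem matu_m6 (h : Dat φ) (hr : Rho φ ρ) (_ : p ∈ XU φ ρ) :
    fr φ 6 (ρ * fr φ 2 p.1) = ρ⁻¹ * p.1 := by
  simp only [map_mul, fr_fr]
  rw [matu_rho6 hr, h.ord]

end conj

/-- `T` as an explicit matrix. -/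
theorem matu_th' {K : Type} [Field K] {φ : K ≃+* K} {ρ : K} (h : Dat φ) (hr : Rho φ ρ) {p : K × K}
    (hp : p ∈ XU φ ρ) :
    th φ ρ p = !![C p.1, C (p.2 * (1 + p.1 * fr φ 2 p.1)), C (ρ * fr φ 2 p.1), 0;
      0, C (fr φ 2 p.1), C (fr φ 2 p.2 * (1 + fr φ 2 p.1 * p.1⁻¹)), C (ρ⁻¹ * p.1⁻¹);
      X * C (ρ * (fr φ 2 p.1)⁻¹), 0, C (p.1⁻¹), C (p.2 * (1 + p.1⁻¹ * (fr φ 2 p.1)⁻¹));
      X * C (fr φ 2 p.2 * (1 + (fr φ 2 p.1)⁻¹ * p.1)), X * C (ρ⁻¹ * p.1), 0,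
        C ((fr φ 2 p.1)⁻¹)] := by
  rw [matu_th, matu_tt2 hp, matu_tt4 hp, matu_tt6 h hp, matu_m2 hr hp, matu_m4 hr hp,
    matu_m6 h hr hp, matu_a4 hp, matu_a6 hp, matu_tt]

theorem matu_Pw {K : Type} [Field K] (ρ : K) (h : ρ ≠ 0) :
    Pw ρ = 1 + X * C (ρ ^ 2 + ρ⁻¹ ^ 2) + X ^ 2 := by
  have h1 : (C (ρ ^ 2) : K[X]) * C (ρ⁻¹ ^ 2) = 1 := by
    rw [← C_mul, ← mul_pow, mul_inv_cancel₀ h, one_pow, C_1]
  unfold Pw
  rw [C_add]
  linear_combination h1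

theorem matu_det_th {K : Type} [Field K] {φ : K ≃+* K} {ρ : K} (h : Dat φ) (hr : Rho φ ρ)
    {p : K × K} (hp : p ∈ XU φ ρ) : (th φ ρ p).det = Pw ρ := by
  have hA := matu_a_ne hp
  have hB := matu_a2_ne hp
  have hρ := matu_rho_ne hr
  have hE := matu_E h.two p.1 (fr φ 2 p.1) p.2 (fr φ 2 p.2) ρ hA hB hρ hp.2.2.2.2
  rw [matu_th' h hr hp, matu_det (two_poly h), matu_Pw ρ hρ]
  simp only [← C_mul, ← C_add]
  rw [hE, add_zero]
  congr 1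
  · congr 1
    · rw [← C_1]
      congr 1
      field_simp
    · congr 2
      field_simp
      ring
  · rw [show ρ * fr φ 2 p.1 * (ρ⁻¹ * p.1⁻¹) * (ρ * (fr φ 2 p.1)⁻¹) * (ρ⁻¹ * p.1) = 1 by
      field_simp, C_1, mul_one]

theorem matu_cir_Zm {K : Type} [Field K] (φ : K ≃+* K) : Cir φ (Zm : Mat K) := by
  have e : (Zm : Mat K).map (Polynomial.map (fr φ 2)) = Zm := by
    refine Matrix.ext fun i j => ?_
    fin_cases i <;> fin_cases j <;> simp [Zm]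
  unfold Cir
  rw [e]

theorem matu_cir_add {K : Type} [Field K] {φ : K ≃+* K} {M N : Mat K} (hM : Cir φ M)
    (hN : Cir φ N) : Cir φ (M + N) := by
  have e : (M + N).map (Polynomial.map (fr φ 2)) =
      M.map (Polynomial.map (fr φ 2)) + N.map (Polynomial.map (fr φ 2)) := by
    refine Matrix.ext fun i j => ?_
    simp
  unfold Cir at *
  rw [e, add_mul, hM, hN, mul_add]

theorem matu_cir_th {K : Type} [Field K] {φ : K ≃+* K} (h : Dat φ) (ρ : K) (p : K × K) :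
    Cir φ (th φ ρ p) := by
  unfold th
  exact matu_cir_add (matu_cir_add (mata_cirdg h _)
    (mata_cir_mul (mata_cirdg h _) (matu_cir_Zm φ)))
    (mata_cir_mul (mata_cirdg h _) (mata_cir_mul (matu_cir_Zm φ) (matu_cir_Zm φ)))

theorem matu_Pw_map {K : Type} [Field K] {φ : K ≃+* K} {ρ : K} (hr : Rho φ ρ) :
    (Pw ρ).map (fr φ 2) = Pw ρ := by
  have e1 : fr φ 2 (ρ ^ 2) = ρ⁻¹ ^ 2 := by rw [map_pow, matu_rho2 hr]
  have e2 : fr φ 2 (ρ⁻¹ ^ 2) = ρ ^ 2 := by rw [map_pow, map_inv₀, matu_rho2 hr, inv_inv]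
  unfold Pw
  rw [Polynomial.map_mul, Polynomial.map_add, Polynomial.map_add, Polynomial.map_X,
    Polynomial.map_C, Polynomial.map_C, e1, e2, mul_comm]

/-- The adjugate of a circulant matrix is circulant. -/
theorem matu_cir_adj {K : Type} [Field K] {φ : K ≃+* K} {M : Mat K} (hM : Cir φ M)
    (h0 : M.det ≠ 0) (hd : M.det.map (fr φ 2) = M.det) : Cir φ M.adjugate := by
  have e1 : M.adjugate.map (Polynomial.map (fr φ 2)) =
      (M.map (Polynomial.map (fr φ 2))).adjugate :=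
    (Polynomial.mapRingHom (fr φ 2)).map_adjugate M
  have e2 : (M.map (Polynomial.map (fr φ 2))).det = M.det := by
    have := (Polynomial.mapRingHom (fr φ 2)).map_det M
    rw [Polynomial.coe_mapRingHom, hd] at this
    exact this.symm
  unfold Cir at *
  rw [e1]
  generalize hS : M.map (Polynomial.map (fr φ 2)) = S at *
  have k1 : S.adjugate * S = M.det • (1 : Mat K) := by rw [Matrix.adjugate_mul, e2]
  have k2 : M * M.adjugate = M.det • (1 : Mat K) := Matrix.mul_adjugate M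
  have k3 : S.adjugate * (Zm * M) * M.adjugate = S.adjugate * (S * Zm) * M.adjugate := by rw [hM]
  have k4 : M.det • (S.adjugate * Zm) = M.det • (Zm * M.adjugate) := by
    calc M.det • (S.adjugate * Zm) = S.adjugate * (Zm * M) * M.adjugate := by
          rw [mul_assoc, mul_assoc, k2, Matrix.mul_smul, mul_one, Matrix.mul_smul]
      _ = S.adjugate * (S * Zm) * M.adjugate := k3
      _ = M.det • (Zm * M.adjugate) := by
          rw [← mul_assoc, k1, Matrix.smul_mul, one_mul, Matrix.smul_mul]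
  refine Matrix.ext fun i j => ?_
  have k5 := congrFun (congrFun k4 i) j
  rw [Matrix.smul_apply, Matrix.smul_apply, smul_eq_mul, smul_eq_mul] at k5
  exact mul_left_cancel₀ h0 k5

theorem st_MATU : ST_MATU := by
  intro K _ φ ρ h hr p hp
  have hd := matu_det_th h hr hp
  have hP : Pw ρ ≠ 0 := mul_ne_zero (X_add_C_ne_zero _) (X_add_C_ne_zero _)
  refine ⟨hd, matu_cir_th h ρ p, ?_⟩
  unfold ad
  exact matu_cir_adj (matu_cir_th h ρ p) (by rw [hd]; exact hP)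
    (by rw [hd]; exact matu_Pw_map hr)

end Pool.Agent.Helper69.GU
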