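import Pool.Agent.Helper69.GU.Defs

set_option autoImplicit false

/-! Module VANU: a divisible palindromic polynomial with high order at `0` vanishes. -/

namespace Pool.Agent.Helper69.GU

open Polynomial
open Pool.Agent.Helper51.GT (Mat PMat fr Dat dg Zm Fil Cir flp Red gprod Zp Filp Circ tr4)

theorem vanu_Pw {K : Type} [Field K] (ρ : K) (h : ρ ≠ 0) :
    Pw ρ = X ^ 2 + C (ρ ^ 2 + ρ⁻¹ ^ 2) * X + 1 := by
  have h1 : (C (ρ ^ 2) : K[X]) * C (ρ⁻¹ ^ 2) = 1 := by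
    rw [← C_mul, ← mul_pow, mul_inv_cancel₀ h, one_pow, C_1]
  unfold Pw
  rw [C_add]
  linear_combination h1

theorem vanu_ndeg {K : Type} [Field K] (ρ : K) : (Pw ρ).natDegree = 2 := by
  unfold Pw
  rw [natDegree_mul (X_add_C_ne_zero _) (X_add_C_ne_zero _), natDegree_X_add_C, natDegree_X_add_C]

theorem vanu_ne {K : Type} [Field K] (ρ : K) : Pw ρ ≠ 0 :=
  mul_ne_zero (X_add_C_ne_zero _) (X_add_C_ne_zero _)

theorem vanu_reflect_two {K : Type} [Field K] (ρ : K) (h : ρ ≠ 0) :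
    reflect 2 (Pw ρ) = Pw ρ := by
  rw [vanu_Pw ρ h]
  generalize ρ ^ 2 + ρ⁻¹ ^ 2 = c
  refine Polynomial.ext fun t => ?_
  rw [coeff_reflect]
  rcases Nat.lt_or_ge 2 t with ht | ht
  · rw [revAt_eq_self_of_lt ht]
  · rw [revAt_le ht]
    interval_cases t <;> simp [coeff_one, coeff_X, coeff_C]

theorem vanu_reflect_pow {K : Type} [Field K] (ρ : K) (h : ρ ≠ 0) (n : ℕ) :
    reflect (2 * n) ((Pw ρ) ^ n) = (Pw ρ) ^ n := by
  induction n with
  | zero =>
    rw [pow_zero]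
    refine Polynomial.ext fun t => ?_
    rw [coeff_reflect]
    by_cases ht : t = 0
    · subst ht; simp
    · rw [revAt_eq_self_of_lt (Nat.pos_of_ne_zero ht)]
  | succ n ih =>
    have h1 : ((Pw ρ) ^ n).natDegree ≤ 2 * n := by
      rw [natDegree_pow, vanu_ndeg, mul_comm]
    have h2 : (Pw ρ).natDegree ≤ 2 := (vanu_ndeg ρ).le
    rw [pow_succ, show 2 * (n + 1) = 2 * n + 2 by ring, reflect_mul _ _ h1 h2, ih,
      vanu_reflect_two ρ h]

theorem st_VANU : ST_VANU := by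
  intro K _ ρ p j d hρ hjd hdiv hlow hsym
  by_contra hp
  obtain ⟨e, rfl⟩ := hdiv
  have he : e ≠ 0 := right_ne_zero_of_mul hp
  have hpi : Pw ρ ≠ 0 := vanu_ne ρ
  have hdeg : ((Pw ρ) ^ (3 * j)).natDegree = 2 * (3 * j) := by
    rw [natDegree_pow, vanu_ndeg, mul_comm]
  have hd8 : ((Pw ρ) ^ (3 * j) * e).natDegree ≤ 8 * j := by
    rw [natDegree_le_iff_coeff_eq_zero]
    intro t ht
    rw [hsym t, if_neg (by omega)]
  have hej : e.natDegree ≤ 2 * j := by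
    rw [natDegree_mul (pow_ne_zero _ hpi) he, hdeg] at hd8
    omega
  have hrefl : (Pw ρ) ^ (3 * j) * e = reflect (8 * j) ((Pw ρ) ^ (3 * j) * e) := by
    refine Polynomial.ext fun t => ?_
    rw [coeff_reflect]
    rcases Nat.lt_or_ge (8 * j) t with ht | ht
    · rw [revAt_eq_self_of_lt ht]
    · rw [revAt_le ht, hsym t, if_pos ht]
  rw [show 8 * j = 2 * (3 * j) + 2 * j by ring, reflect_mul _ _ hdeg.le hej,
    vanu_reflect_pow ρ hρ] at hrefl
  have hee : e = reflect (2 * j) e := mul_left_cancel₀ (pow_ne_zero _ hpi) hrefl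
  have hX : (X : K[X]) ^ d ∣ (Pw ρ) ^ (3 * j) * e := by
    rw [X_pow_dvd_iff]
    exact hlow
  have hcop : IsCoprime (X : K[X]) (Pw ρ) := by
    rw [vanu_Pw ρ hρ]
    exact ⟨-(X + C (ρ ^ 2 + ρ⁻¹ ^ 2)), 1, by ring⟩
  have hXe : (X : K[X]) ^ d ∣ e := (hcop.pow).dvd_of_dvd_mul_left hX
  rw [X_pow_dvd_iff] at hXe
  apply he
  refine Polynomial.ext fun t => ?_
  rw [coeff_zero]
  rcases Nat.lt_or_ge t d with ht | ht
  · exact hXe t ht
  · rcases Nat.lt_or_ge (2 * j) t with h2 | h2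
    · exact coeff_eq_zero_of_natDegree_lt (lt_of_le_of_lt hej h2)
    · rw [hee, coeff_reflect, revAt_le h2, hXe (2 * j - t) (by omega)]

end Pool.Agent.Helper69.GU
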